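import Pool.Agent.Helper30.LK.St

/-!
# Project LK (MP_2d2425_nt): module PWF, squareful numbers
-/

set_option autoImplicit false

noncomputable section

namespace Pool.Agent.Helper51.LK

open Finset ArithmeticFunction Filter
open Pool.Agent.Helper30.LK

/-- every squareful number is `e ^ 2 d ^ 3` -/
private theorem repr_pw {s : ℕ} (hs : 1 ≤ s) (h : Pw s) : ∃ d e : ℕ, 1 ≤ d ∧ 1 ≤ e ∧ e ^ 2 * d ^ 3 = s := by
  obtain ⟨d, c, hd, hc, hcd, hsq⟩ := Nat.sq_mul_squarefree_of_pos hs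
  have hdc : d ∣ c := by
    have h1 : d.primeFactors ⊆ c.primeFactors := by
      intro p hp
      have hpp := Nat.prime_of_mem_primeFactors hp
      have hpd := Nat.dvd_of_mem_primeFactors hp
      have h2 : p ^ 2 ∣ s := h p hpp (by rw [← hcd]; exact hpd.mul_left _)
      rw [← hcd] at h2
      refine Nat.mem_primeFactors.2 ⟨hpp, ?_, by omega⟩
      by_contra hpc
      have h3 : Nat.Coprime (p ^ 2) (c ^ 2) :=
        Nat.Coprime.pow 2 2 ((Nat.Prime.coprime_iff_not_dvd hpp).2 hpc)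
      have h4 : p ^ 2 ∣ d := h3.dvd_of_dvd_mul_left h2
      have h5 : p * p ∣ d := by rw [← sq]; exact h4
      have h6 := hsq p h5
      exact hpp.one_lt.ne' (Nat.isUnit_iff.1 h6)
    rw [← Nat.prod_primeFactors_of_squarefree hsq]
    exact (Finset.prod_dvd_prod_of_subset _ _ _ h1).trans (Nat.prod_primeFactors_dvd c)
  obtain ⟨e, he⟩ := hdc
  refine ⟨d, e, hd, ?_, ?_⟩
  · rcases Nat.eq_zero_or_pos e with h0 | h0
    · rw [h0, mul_zero] at he; omega
    · exact h0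
  · rw [← hcd, he]; ring

/-- the sum over squareful numbers is at most the double sum -/
private theorem key (Y : ℕ) (Q : ℕ → Prop) [DecidablePred Q] [DecidablePred Pw] (g : ℕ → ℝ) (hg : ∀ s, 0 ≤ g s) :
    ∑ s ∈ (Icc 1 Y).filter (fun s => Pw s ∧ Q s), g s ≤
      ∑ d ∈ Icc 1 Y, ∑ e ∈ (Icc 1 Y).filter (fun e => e ^ 2 * d ^ 3 ≤ Y ∧ Q (e ^ 2 * d ^ 3)),
        g (e ^ 2 * d ^ 3) := by
  classical
  set S := (Icc 1 Y).filter (fun s => Pw s ∧ Q s) with hS
  have hF : ∀ s : ℕ, ∃ p : ℕ × ℕ, s ∈ S → 1 ≤ p.1 ∧ 1 ≤ p.2 ∧ p.2 ^ 2 * p.1 ^ 3 = s := by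
    intro s
    by_cases hs : s ∈ S
    · rw [hS, mem_filter, mem_Icc] at hs
      obtain ⟨d, e, h1, h2, h3⟩ := repr_pw hs.1.1 hs.2.1
      exact ⟨(d, e), fun _ => ⟨h1, h2, h3⟩⟩
    · exact ⟨(0, 0), fun h => absurd h hs⟩
  choose F hF using hF
  set P := ((Icc 1 Y) ×ˢ (Icc 1 Y)).filter (fun p : ℕ × ℕ => p.2 ^ 2 * p.1 ^ 3 ≤ Y ∧ Q (p.2 ^ 2 * p.1 ^ 3)) with hP
  have h1 : ∑ s ∈ S, g s = ∑ p ∈ S.image F, g (p.2 ^ 2 * p.1 ^ 3) := by
    rw [sum_image]
    · refine sum_congr rfl fun s hs => ?_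
      rw [(hF s hs).2.2]
    · intro a ha b hb hab
      rw [← (hF a ha).2.2, ← (hF b hb).2.2, hab]
  have h2 : S.image F ⊆ P := by
    intro p hp
    obtain ⟨s, hs, rfl⟩ := mem_image.1 hp
    obtain ⟨h3, h4, h5⟩ := hF s hs
    have hs' := hs
    rw [hS, mem_filter, mem_Icc] at hs'
    rw [hP, mem_filter, mem_product, mem_Icc, mem_Icc, h5]
    refine ⟨⟨⟨h3, ?_⟩, ⟨h4, ?_⟩⟩, hs'.1.2, hs'.2.2⟩
    · calc (F s).1 ≤ (F s).1 ^ 3 := Nat.le_self_pow (by norm_num) _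
        _ ≤ (F s).2 ^ 2 * (F s).1 ^ 3 := Nat.le_mul_of_pos_left _ (by positivity)
        _ ≤ Y := by rw [h5]; exact hs'.1.2
    · calc (F s).2 ≤ (F s).2 ^ 2 := Nat.le_self_pow (by norm_num) _
        _ ≤ (F s).2 ^ 2 * (F s).1 ^ 3 := Nat.le_mul_of_pos_right _ (by positivity)
        _ ≤ Y := by rw [h5]; exact hs'.1.2
  rw [h1]
  refine (sum_le_sum_of_subset_of_nonneg h2 fun p _ _ => hg _).trans (le_of_eq ?_)
  rw [hP, sum_filter, sum_product]
  refine sum_congr rfl fun d _ => ?_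
  rw [sum_filter]

/-- `∑ d ^ (-3/2) ≤ 3` -/
private theorem sum32 (N : ℕ) : ∑ d ∈ Icc 1 N, (1 : ℝ) / (d * √(d : ℝ)) ≤ 3 := by
  have h : ∀ N : ℕ, 1 ≤ N → ∑ d ∈ Icc 1 N, (1 : ℝ) / (d * √(d : ℝ)) ≤ 3 - 2 / √(N : ℝ) := by
    intro N hN
    induction N, hN using Nat.le_induction with
    | base => norm_num
    | succ N hN ih =>
      rw [sum_Icc_succ_top (by omega)]
      have hx : 0 < √(N : ℝ) := Real.sqrt_pos.2 (by exact_mod_cast hN)
      have hy : 0 < √((N + 1 : ℕ) : ℝ) := Real.sqrt_pos.2 (by positivity)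
      set x := √(N : ℝ) with hxd
      set y := √((N + 1 : ℕ) : ℝ) with hyd
      have hx2 : x ^ 2 = N := Real.sq_sqrt (by positivity)
      have hy2 : y ^ 2 = (N + 1 : ℕ) := Real.sq_sqrt (by positivity)
      have hxy : x ≤ y := Real.sqrt_le_sqrt (by push_cast; linarith)
      have hyx : y ^ 2 = x ^ 2 + 1 := by rw [hx2, hy2]; push_cast; ring
      have h1 : (1 : ℝ) / (((N + 1 : ℕ) : ℝ) * y) ≤ 2 / x - 2 / y := by
        rw [← hy2, div_sub_div _ _ hx.ne' hy.ne', div_le_div_iff₀ (by positivity) (by positivity)]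
        have h2 : (2 * y - x * 2) * (x + y) = 2 := by nlinarith
        have h3 : x * y * (x + y) ≤ 2 * y ^ 3 := by nlinarith [mul_pos hx hy]
        have h4 : 0 < x + y := by positivity
        have h5 : (1 * (x * y)) * (x + y) ≤ ((2 * y - x * 2) * (y ^ 2 * y)) * (x + y) := by
          calc (1 * (x * y)) * (x + y) = x * y * (x + y) := by ring
            _ ≤ 2 * y ^ 3 := h3
            _ = ((2 * y - x * 2) * (x + y)) * y ^ 3 := by rw [h2]
            _ = _ := by ring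
        exact le_of_mul_le_mul_right h5 h4
      linarith
  rcases Nat.eq_zero_or_pos N with h0 | h0
  · subst h0; norm_num
  · have h1 := h N h0
    have h2 : 0 ≤ 2 / √(N : ℝ) := by positivity
    linarith

/-- tails of `∑ e ^ (-2)` -/
private theorem tail (T : ℝ) (hT : 0 < T) (N : ℕ) :
    ∑ e ∈ (Icc 1 N).filter (fun e : ℕ => T < (e : ℝ)), (1 : ℝ) / (e : ℝ) ^ 2 ≤ 2 / T := by
  classical
  have h : ∀ N : ℕ, (∑ e ∈ (Icc 1 N).filter (fun e : ℕ => T < (e : ℝ)), (1 : ℝ) / (e : ℝ) ^ 2 ≤ 2 / T) ∧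
      (T < N → ∑ e ∈ (Icc 1 N).filter (fun e : ℕ => T < (e : ℝ)), (1 : ℝ) / (e : ℝ) ^ 2 ≤ 2 / T - 1 / N) := by
    intro N
    induction N with
    | zero =>
      refine ⟨?_, fun h => ?_⟩
      · simp only [Icc_eq_empty (show ¬ (1 : ℕ) ≤ 0 by norm_num), filter_empty, sum_empty]
        positivity
      · exfalso
        rw [Nat.cast_zero] at h
        linarith
    | succ N ih =>
      have hN1 : (0 : ℝ) < ((N + 1 : ℕ) : ℝ) := by positivity
      have hpos : 0 ≤ (1 : ℝ) / ((N + 1 : ℕ) : ℝ) := by positivity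
      by_cases hTN : T < ((N + 1 : ℕ) : ℝ)
      · have h1 : ∑ e ∈ (Icc 1 (N + 1)).filter (fun e : ℕ => T < (e : ℝ)), (1 : ℝ) / (e : ℝ) ^ 2 =
            ∑ e ∈ (Icc 1 N).filter (fun e : ℕ => T < (e : ℝ)), (1 : ℝ) / (e : ℝ) ^ 2 +
              1 / ((N + 1 : ℕ) : ℝ) ^ 2 := by
          rw [sum_filter, sum_filter, sum_Icc_succ_top (by omega), if_pos hTN]
        have h2 : ∑ e ∈ (Icc 1 (N + 1)).filter (fun e : ℕ => T < (e : ℝ)), (1 : ℝ) / (e : ℝ) ^ 2 ≤
            2 / T - 1 / ((N + 1 : ℕ) : ℝ) := by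
          rw [h1]
          by_cases hTN' : T < (N : ℝ)
          · have h3 := ih.2 hTN'
            have hN0 : (0 : ℝ) < N := hT.trans hTN'
            have h4 : (1 : ℝ) / ((N + 1 : ℕ) : ℝ) ^ 2 ≤ 1 / N - 1 / ((N + 1 : ℕ) : ℝ) := by
              push_cast
              rw [div_sub_div _ _ hN0.ne' (by positivity), div_le_div_iff₀ (by positivity) (by positivity)]
              nlinarith
            linarith
          · rw [not_lt] at hTN'
            have h3 : ∑ e ∈ (Icc 1 N).filter (fun e : ℕ => T < (e : ℝ)), (1 : ℝ) / (e : ℝ) ^ 2 = 0 := by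
              rw [filter_false_of_mem]
              · rfl
              · intro e he
                rw [mem_Icc] at he
                rw [not_lt]
                have : (e : ℝ) ≤ N := by exact_mod_cast he.2
                linarith
            rw [h3, zero_add]
            have h4 : 2 / ((N + 1 : ℕ) : ℝ) ≤ 2 / T := div_le_div_of_nonneg_left (by norm_num) hT hTN.le
            have h5 : (1 : ℝ) / ((N + 1 : ℕ) : ℝ) ^ 2 ≤ 1 / ((N + 1 : ℕ) : ℝ) := by
              rw [div_le_div_iff₀ (by positivity) hN1]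
              have : (1 : ℝ) ≤ ((N + 1 : ℕ) : ℝ) := by push_cast; linarith [Nat.cast_nonneg (α := ℝ) N]
              nlinarith
            have h6 : 2 / ((N + 1 : ℕ) : ℝ) = 1 / ((N + 1 : ℕ) : ℝ) + 1 / ((N + 1 : ℕ) : ℝ) := by ring
            linarith
        exact ⟨h2.trans (by linarith), fun _ => h2⟩
      · refine ⟨?_, fun h => absurd h hTN⟩
        have h1 : ∑ e ∈ (Icc 1 (N + 1)).filter (fun e : ℕ => T < (e : ℝ)), (1 : ℝ) / (e : ℝ) ^ 2 =
            ∑ e ∈ (Icc 1 N).filter (fun e : ℕ => T < (e : ℝ)), (1 : ℝ) / (e : ℝ) ^ 2 := by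
          rw [sum_filter, sum_filter, sum_Icc_succ_top (by omega), if_neg hTN, add_zero]
        rw [h1]
        exact ih.1
  exact (h N).1

theorem hPWF : StPWF := by
  classical
  refine ⟨6, by norm_num, fun Y hY => ?_, fun Y Z hZ => ?_⟩
  · have h1 := key Y (fun _ => True) (fun _ => (1 : ℝ)) (fun _ => by norm_num)
    have h2 : (((Icc 1 Y).filter Pw).card : ℝ) = ∑ s ∈ (Icc 1 Y).filter (fun s => Pw s ∧ True), (1 : ℝ) := by
      rw [sum_const, nsmul_eq_mul, mul_one]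
      simp only [and_true]
    rw [h2]
    refine h1.trans ?_
    have h3 : ∀ d ∈ Icc 1 Y, ∑ e ∈ (Icc 1 Y).filter (fun e => e ^ 2 * d ^ 3 ≤ Y ∧ True), (1 : ℝ) ≤
        √(Y : ℝ) * (1 / (d * √(d : ℝ))) := by
      intro d hd
      rw [mem_Icc] at hd
      have hd0 : (0 : ℝ) < d := by exact_mod_cast hd.1
      have hsd : 0 < √(d : ℝ) := Real.sqrt_pos.2 hd0
      rw [sum_const, nsmul_eq_mul, mul_one]
      have h4 : (Icc 1 Y).filter (fun e => e ^ 2 * d ^ 3 ≤ Y ∧ True) ⊆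
          Icc 1 ⌊√(Y : ℝ) * (1 / (d * √(d : ℝ)))⌋₊ := by
        intro e he
        rw [mem_filter, mem_Icc] at he
        rw [mem_Icc]
        refine ⟨he.1.1, Nat.le_floor ?_⟩
        rw [mul_one_div, le_div_iff₀ (by positivity)]
        apply Real.le_sqrt_of_sq_le
        have h5 : ((e : ℝ) * (d * √(d : ℝ))) ^ 2 = (e : ℝ) ^ 2 * (d : ℝ) ^ 3 := by
          have h6 : √(d : ℝ) ^ 2 = d := Real.sq_sqrt hd0.le
          calc ((e : ℝ) * (d * √(d : ℝ))) ^ 2 = (e : ℝ) ^ 2 * (d : ℝ) ^ 2 * √(d : ℝ) ^ 2 := by ring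
            _ = _ := by rw [h6]; ring
        rw [h5]
        exact_mod_cast he.2.1
      have h7 := card_le_card h4
      rw [Nat.card_Icc, Nat.add_sub_cancel] at h7
      have h8 : (((Icc 1 Y).filter (fun e => e ^ 2 * d ^ 3 ≤ Y ∧ True)).card : ℝ) ≤
          (⌊√(Y : ℝ) * (1 / (d * √(d : ℝ)))⌋₊ : ℝ) := by exact_mod_cast h7
      exact h8.trans (Nat.floor_le (by positivity))
    refine (sum_le_sum h3).trans ?_
    rw [← mul_sum]
    have h9 := sum32 Y
    have h10 : 0 ≤ √(Y : ℝ) := Real.sqrt_nonneg _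
    nlinarith
  · have hZ0 : 0 < Z := by linarith
    have hsZ : 0 < √Z := Real.sqrt_pos.2 hZ0
    have h1 := key Y (fun s => Z < (s : ℝ)) (fun s => (1 : ℝ) / s) (fun s => by positivity)
    refine h1.trans ?_
    have h3 : ∀ d ∈ Icc 1 Y, ∑ e ∈ (Icc 1 Y).filter (fun e => e ^ 2 * d ^ 3 ≤ Y ∧ Z < ((e ^ 2 * d ^ 3 : ℕ) : ℝ)),
        (1 : ℝ) / ((e ^ 2 * d ^ 3 : ℕ) : ℝ) ≤ 2 / √Z * (1 / (d * √(d : ℝ))) := by
      intro d hd
      rw [mem_Icc] at hd
      have hd0 : (0 : ℝ) < d := by exact_mod_cast hd.1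
      have hsd : 0 < √(d : ℝ) := Real.sqrt_pos.2 hd0
      have hsd2 : √(d : ℝ) ^ 2 = d := Real.sq_sqrt hd0.le
      have hsZ2 : √Z ^ 2 = Z := Real.sq_sqrt hZ0.le
      set T : ℝ := √Z / (d * √(d : ℝ)) with hT
      have hT0 : 0 < T := by positivity
      have h4 : ∑ e ∈ (Icc 1 Y).filter (fun e => e ^ 2 * d ^ 3 ≤ Y ∧ Z < ((e ^ 2 * d ^ 3 : ℕ) : ℝ)),
          (1 : ℝ) / ((e ^ 2 * d ^ 3 : ℕ) : ℝ) ≤
          ∑ e ∈ (Icc 1 Y).filter (fun e : ℕ => T < (e : ℝ)), (1 : ℝ) / (d : ℝ) ^ 3 * (1 / (e : ℝ) ^ 2) := by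
        have h5 : (Icc 1 Y).filter (fun e => e ^ 2 * d ^ 3 ≤ Y ∧ Z < ((e ^ 2 * d ^ 3 : ℕ) : ℝ)) ⊆
            (Icc 1 Y).filter (fun e : ℕ => T < (e : ℝ)) := by
          intro e he
          rw [mem_filter] at he ⊢
          refine ⟨he.1, ?_⟩
          have h6 := he.2.2
          push_cast at h6
          have he0 : (0 : ℝ) ≤ e := by positivity
          rw [hT, div_lt_iff₀ (by positivity)]
          apply lt_of_pow_lt_pow_left₀ 2 (by positivity)
          have h7 : ((e : ℝ) * (d * √(d : ℝ))) ^ 2 = (e : ℝ) ^ 2 * (d : ℝ) ^ 3 := by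
            calc ((e : ℝ) * (d * √(d : ℝ))) ^ 2 = (e : ℝ) ^ 2 * (d : ℝ) ^ 2 * √(d : ℝ) ^ 2 := by ring
              _ = _ := by rw [hsd2]; ring
          rw [h7, hsZ2]
          exact h6
        refine le_trans (le_of_eq ?_) (sum_le_sum_of_subset_of_nonneg h5 fun e _ _ => by positivity)
        refine sum_congr rfl fun e he => ?_
        push_cast
        rw [mul_comm ((e : ℝ) ^ 2), ← one_div_mul_one_div]
      refine h4.trans ?_
      rw [← mul_sum]
      have h8 := tail T hT0 Y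
      have h9 : (1 : ℝ) / (d : ℝ) ^ 3 * ∑ e ∈ (Icc 1 Y).filter (fun e : ℕ => T < (e : ℝ)), (1 : ℝ) / (e : ℝ) ^ 2 ≤
          1 / (d : ℝ) ^ 3 * (2 / T) := mul_le_mul_of_nonneg_left h8 (by positivity)
      refine h9.trans (le_of_eq ?_)
      rw [hT]
      have h10 : (d : ℝ) ^ 3 = d * √(d : ℝ) * (d * √(d : ℝ)) := by
        calc (d : ℝ) ^ 3 = (d : ℝ) ^ 2 * √(d : ℝ) ^ 2 := by rw [hsd2]; ring
          _ = _ := by ring
      rw [h10]
      field_simp
    refine (sum_le_sum h3).trans ?_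
    rw [← mul_sum]
    have h9 := sum32 Y
    have h11 : 0 ≤ 2 / √Z := by positivity
    calc 2 / √Z * ∑ d ∈ Icc 1 Y, (1 : ℝ) / (d * √(d : ℝ)) ≤ 2 / √Z * 3 := mul_le_mul_of_nonneg_left h9 h11
      _ = 6 / √Z := by ring

end Pool.Agent.Helper51.LK
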