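import Pool.Agent.Helper14.LK.St
import Pool.Agent.Helper14.LK.Basic

/-!
# Project LK, module SIG: the primitive
-/

set_option autoImplicit false

namespace Pool.Agent.Helper51.LK

open Pool.Agent.Helper14.LK
open scoped ContDiff Topology
open MeasureTheory Set Filter

/-- the cut-off in the parameter -/
private noncomputable def kap (S r : ℝ) : ℝ := 1 - Real.smoothTransition (r ^ 2 / S ^ 2)

/-- the cut-off in the fibre -/
private noncomputable def chi {n : ℕ} (y : EE n) : ℝ := 1 - Real.smoothTransition (‖y‖ ^ 2)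

/-- the cut off primitive -/
private noncomputable def ff {n : ℕ} (f : EE n → ℝ) (w : WW n) : ℝ := f w.1 * chi w.2

/-- the primitive -/
private noncomputable def sg {n : ℕ} (F : ℝ → WW n → WW n) (f : EE n → ℝ) (S r : ℝ) (w : WW n) :
    WW n →L[ℝ] ℝ :=
  -((innerSL ℝ (F r w).2).comp ((ContinuousLinearMap.fst ℝ (EE n) (EE n)).comp (fderiv ℝ (F r) w))) +
    (innerSL ℝ w.2).comp (ContinuousLinearMap.fst ℝ (EE n) (EE n)) - kap S r • fderiv ℝ (ff f) w

private theorem sg_apply {n : ℕ} (F : ℝ → WW n → WW n) (f : EE n → ℝ) (S r : ℝ) (w b : WW n) :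
    sg F f S r w b = -inner ℝ (F r w).2 (fderiv ℝ (F r) w b).1 + inner ℝ w.2 b.1 -
      kap S r * fderiv ℝ (ff f) w b := by
  simp [sg]

private theorem contDiff_kap (S : ℝ) : ContDiff ℝ ∞ (kap S) := by
  unfold kap
  exact contDiff_const.sub (Real.smoothTransition.contDiff.comp ((contDiff_id.pow 2).div_const _))

private theorem contDiff_chi (n : ℕ) : ContDiff ℝ ∞ (chi (n := n)) := by
  unfold chi
  exact contDiff_const.sub (Real.smoothTransition.contDiff.comp (contDiff_norm_sq ℝ))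

private theorem contDiff_ff {n : ℕ} {f : EE n → ℝ} (hf : ContDiff ℝ ∞ f) : ContDiff ℝ ∞ (ff f) := by
  unfold ff
  exact (hf.comp contDiff_fst).mul ((contDiff_chi n).comp contDiff_snd)

private theorem kap_zero (S : ℝ) : kap S 0 = 1 := by
  simp [kap]

private theorem kap_eq_zero {S r : ℝ} (hS : 0 < S) (h : S ≤ |r|) : kap S r = 0 := by
  unfold kap
  rw [Real.smoothTransition.one_of_one_le, sub_self]
  rw [le_div_iff₀ (by positivity), one_mul, ← sq_abs r]
  exact pow_le_pow_left₀ hS.le h 2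

private theorem chi_zero {n : ℕ} : chi (0 : EE n) = 1 := by
  simp [chi]

private theorem chi_eq_zero {n : ℕ} {y : EE n} (h : 1 ≤ ‖y‖) : chi y = 0 := by
  unfold chi
  rw [Real.smoothTransition.one_of_one_le, sub_self]
  nlinarith

private theorem contDiff_sg {n : ℕ} {F : ℝ → WW n → WW n} {f : EE n → ℝ} (S : ℝ)
    (hF : ContDiff ℝ ∞ (Function.uncurry F)) (hf : ContDiff ℝ ∞ f) :
    ContDiff ℝ ∞ (Function.uncurry (sg F f S)) := by
  have h1 : ContDiff ℝ ∞ (fun p : ℝ × WW n => fderiv ℝ (F p.1) p.2) := by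
    apply ContDiff.fderiv (f := fun p : ℝ × WW n => F p.1) (g := fun p : ℝ × WW n => p.2)
      (m := ∞) (n := ∞)
    · exact hF.comp ((contDiff_fst.comp contDiff_fst).prodMk contDiff_snd)
    · exact contDiff_snd
    · simp
  have h2 : ContDiff ℝ ∞ (fun p : ℝ × WW n => fderiv ℝ (ff f) p.2) :=
    ((contDiff_ff hf).fderiv_right (m := ∞) (by simp)).comp contDiff_snd
  have h3 : ContDiff ℝ ∞ (fun p : ℝ × WW n => innerSL ℝ (F p.1 p.2).2) :=
    (innerSL ℝ (E := EE n)).contDiff.comp (contDiff_snd.comp hF)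
  have h4 : ContDiff ℝ ∞ (fun p : ℝ × WW n => innerSL ℝ p.2.2) :=
    (innerSL ℝ (E := EE n)).contDiff.comp (contDiff_snd.comp contDiff_snd)
  have h5 : ContDiff ℝ ∞ (fun p : ℝ × WW n => kap S p.1) := (contDiff_kap S).comp contDiff_fst
  show ContDiff ℝ ∞ (fun p : ℝ × WW n => sg F f S p.1 p.2)
  unfold sg
  exact ((h3.clm_comp (contDiff_const.clm_comp h1)).neg.add (h4.clm_comp contDiff_const)).sub
    (h5.smul h2)

private theorem fder2 {E G : Type} [NormedAddCommGroup E] [NormedSpace ℝ E] [NormedAddCommGroup G] [NormedSpace ℝ G]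
    {g : E → G} (hg : ContDiff ℝ ∞ g) (w b : E) :
    HasFDerivAt (fun w => fderiv ℝ g w b) ((fderiv ℝ (fderiv ℝ g) w).flip b) w := by
  have h1 : HasFDerivAt (fderiv ℝ g) (fderiv ℝ (fderiv ℝ g) w) w :=
    (((hg.fderiv_right (m := ∞) (by simp)).differentiable (by simp)) w).hasFDerivAt
  have h2 := h1.clm_apply (hasFDerivAt_const b w)
  refine h2.congr_fderiv ?_
  ext a
  simp

private theorem gen1 {E : Type} [NormedAddCommGroup E] [InnerProductSpace ℝ E] {g : E × E → E × E} {h : E × E → ℝ}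
    (hg : ContDiff ℝ ∞ g) (hh : ContDiff ℝ ∞ h) (κ : ℝ) (s : E × E → (E × E →L[ℝ] ℝ)) (hs : ContDiff ℝ ∞ s)
    (hsb : ∀ w b, s w b = -inner ℝ (g w).2 (fderiv ℝ g w b).1 + inner ℝ w.2 b.1 - κ * fderiv ℝ h w b)
    (w a b : E × E) :
    fderiv ℝ s w a b =
      -(inner ℝ (g w).2 (fderiv ℝ (fderiv ℝ g) w a b).1 +
        inner ℝ (fderiv ℝ g w a).2 (fderiv ℝ g w b).1) + inner ℝ a.2 b.1 -
      κ * fderiv ℝ (fderiv ℝ h) w a b := by
  have e1 : fderiv ℝ s w a b = fderiv ℝ (fun w => s w b) w a := by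
    have h1 : HasFDerivAt s (fderiv ℝ s w) w := (hs.differentiable (by simp) w).hasFDerivAt
    have h2 := h1.clm_apply (hasFDerivAt_const b w)
    rw [h2.fderiv]
    simp
  have e2 : (fun w => s w b) = fun w => -inner ℝ (g w).2 (fderiv ℝ g w b).1 +
      inner ℝ w.2 b.1 - κ * fderiv ℝ h w b := by
    funext w
    exact hsb w b
  have d1 : HasFDerivAt (fun w => (g w).2) ((ContinuousLinearMap.snd ℝ E E).comp (fderiv ℝ g w)) w :=
    (ContinuousLinearMap.snd ℝ E E).hasFDerivAt.comp w (hg.differentiable (by simp) w).hasFDerivAt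
  have d3 : HasFDerivAt (fun w => (fderiv ℝ g w b).1)
      ((ContinuousLinearMap.fst ℝ E E).comp ((fderiv ℝ (fderiv ℝ g) w).flip b)) w :=
    (ContinuousLinearMap.fst ℝ E E).hasFDerivAt.comp w (fder2 hg w b)
  have d4 : HasFDerivAt (fun w : E × E => w.2) (ContinuousLinearMap.snd ℝ E E) w :=
    (ContinuousLinearMap.snd ℝ E E).hasFDerivAt
  have d5 := (fder2 hh w b).const_mul κ
  have d6 := ((d1.inner ℝ d3).neg.add (d4.inner ℝ (hasFDerivAt_const b.1 w))).sub d5
  have d7 : fderiv ℝ (fun w => -inner ℝ (g w).2 (fderiv ℝ g w b).1 +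
      inner ℝ w.2 b.1 - κ * fderiv ℝ h w b) w = _ := d6.fderiv
  rw [e1, e2, d7]
  simp

private theorem fderiv_sg {n : ℕ} {F : ℝ → WW n → WW n} {f : EE n → ℝ} (S r : ℝ) (w a b : WW n)
    (hF : ContDiff ℝ ∞ (Function.uncurry F)) (hf : ContDiff ℝ ∞ f) :
    fderiv ℝ (sg F f S r) w a b =
      -(inner ℝ (F r w).2 (fderiv ℝ (fderiv ℝ (F r)) w a b).1 +
        inner ℝ (fderiv ℝ (F r) w a).2 (fderiv ℝ (F r) w b).1) + inner ℝ a.2 b.1 -
      kap S r * fderiv ℝ (fderiv ℝ (ff f)) w a b := by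
  have hg : ContDiff ℝ ∞ (F r) := hF.comp (contDiff_const.prodMk contDiff_id)
  have hs1 := (contDiff_sg S hF hf).comp (contDiff_prodMk_right r)
  have hs : ContDiff ℝ ∞ (sg F f S r) := hs1
  have h3 := gen1 hg (contDiff_ff hf) (kap S r) (sg F f S r) hs (sg_apply F f S r) w a b
  exact h3

private theorem fderiv_ff {n : ℕ} {f : EE n → ℝ} (hf : ContDiff ℝ ∞ f) (x u : EE n) :
    fderiv ℝ (ff f) (x, 0) (u, 0) = fderiv ℝ f x u := by
  have h1 : HasFDerivAt (fun w : WW n => f w.1) ((fderiv ℝ f x).comp (ContinuousLinearMap.fst ℝ (EE n) (EE n)))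
      (x, 0) :=
    HasFDerivAt.comp (x, (0 : EE n)) (f := fun w : WW n => w.1)
      (hf.differentiable (by simp) x).hasFDerivAt (ContinuousLinearMap.fst ℝ (EE n) (EE n)).hasFDerivAt
  have h2 : HasFDerivAt (fun w : WW n => chi w.2)
      ((fderiv ℝ chi (0 : EE n)).comp (ContinuousLinearMap.snd ℝ (EE n) (EE n))) (x, 0) :=
    HasFDerivAt.comp (x, (0 : EE n)) (f := fun w : WW n => w.2)
      ((contDiff_chi n).differentiable (by simp) 0).hasFDerivAt
      (ContinuousLinearMap.snd ℝ (EE n) (EE n)).hasFDerivAt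
  have h3 := h1.mul h2
  have h4 : fderiv ℝ (ff f) (x, 0) = _ := h3.fderiv
  rw [h4]
  simp [chi_zero]

private theorem symm2 {E G : Type} [NormedAddCommGroup E] [NormedSpace ℝ E] [NormedAddCommGroup G] [NormedSpace ℝ G]
    {g : E → G} (hg : ContDiff ℝ ∞ g) (w a b : E) :
    fderiv ℝ (fderiv ℝ g) w a b = fderiv ℝ (fderiv ℝ g) w b a := by
  have h : IsSymmSndFDerivAt ℝ g w := by
    apply hg.contDiffAt.isSymmSndFDerivAt
    simp only [minSmoothness_of_isRCLikeNormedField]
    exact WithTop.coe_le_coe.2 le_top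
  exact h.eq a b

theorem hSIG : StSIG := by
  intro n F f S R hS hF hf h1 h2 h3 h4
  refine ⟨sg F f S, max R 1 + 1, contDiff_sg S hF hf, ?_, ?_, ?_, ?_⟩
  · intro r w a b
    have hg : ContDiff ℝ ∞ (F r) := hF.comp (contDiff_const.prodMk contDiff_id)
    rw [fderiv_sg S r w a b hF hf, fderiv_sg S r w b a hF hf, symm2 hg w b a,
      symm2 (contDiff_ff hf) w b a]
    unfold om
    rw [real_inner_comm (fderiv ℝ (F r) w a).1, real_inner_comm a.1]
    ring
  · intro r w hw
    have hlt : max R 1 < ‖w‖ := by linarith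
    have ho : ∀ᶠ w' in 𝓝 w, max R 1 < ‖w'‖ :=
      (continuous_norm.continuousAt).eventually (lt_mem_nhds hlt)
    have e1 : fderiv ℝ (F r) w = ContinuousLinearMap.id ℝ (WW n) := by
      have : F r =ᶠ[𝓝 w] fun w' => w' := by
        filter_upwards [ho] with w' hw'
        exact h2 r w' ((le_max_left _ _).trans hw'.le)
      rw [this.fderiv_eq]
      exact fderiv_fun_id
    have e2 : fderiv ℝ (ff f) w = 0 := by
      have : ff f =ᶠ[𝓝 w] fun _ => (0 : ℝ) := by
        filter_upwards [ho] with w' hw'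
        unfold ff
        rw [Prod.norm_def, lt_max_iff] at hw'
        rcases hw' with h | h
        · rw [h3 w'.1 ((le_max_left _ _).trans h.le), zero_mul]
        · rw [chi_eq_zero ((le_max_right _ _).trans h.le), mul_zero]
      rw [this.fderiv_eq]
      simp
    refine ContinuousLinearMap.ext fun b => ?_
    rw [sg_apply, e1, e2, h2 r w ((le_max_left _ _).trans hlt.le)]
    simp
  · intro r w hr
    have e0 : F r = fun w' => w' := by
      funext w'
      exact h1 r w' hr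
    have e1 : fderiv ℝ (F r) w = ContinuousLinearMap.id ℝ (WW n) := by
      rw [e0]
      exact fderiv_fun_id
    have key : ∀ b, sg F f S r w b = 0 := by
      intro b
      rw [sg_apply, e1, kap_eq_zero hS hr, h1 r w hr]
      simp
    exact ContinuousLinearMap.ext key
  · intro x u
    rw [sg_apply, kap_zero, fderiv_ff hf, h4 x u]
    simp

end Pool.Agent.Helper51.LK
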